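import Pool.Agent.H.MP_833c5c_lc.C

set_option autoImplicit false

namespace Pool.Agent.H.MP_40eef6_lc

open Filter Pool.Agent.Lib.helper21.Der Encodable
open Pool.Agent.H.MP_f4da35_lc (Sys)
open scoped Classical

theorem seq {α ι : Type} [Countable ι] [Nonempty ι] (r : α → α → Prop) (h1 : ∀ a, r a a)
    (h2 : ∀ a b c, r a b → r b c → r a c) (T : ι → α → α → Prop) (h : ∀ i a, ∃ b, r a b ∧ T i a b)
    (a : α) : ∃ σ : ℕ → α, (∀ k l, k ≤ l → r (σ k) (σ l)) ∧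
      ∀ i k, ∃ l, k ≤ l ∧ T i (σ l) (σ (l + 1)) := by
  obtain ⟨s, hs⟩ := exists_surjective_nat ι
  choose F h3 h4 using h
  refine ⟨fun k => Nat.rec a (fun k => F (s k.unpair.1)) k, fun k l h => ?_, fun i k => ?_⟩
  · induction h with
    | refl => exact h1 _
    | step _ ih => exact h2 _ _ _ ih (h3 _ _)
  · obtain ⟨n, rfl⟩ := hs i
    refine ⟨n.pair k, Nat.right_le_pair _ _, ?_⟩
    simpa using h4 (s n) _

abbrev Ix := ℕ × List ℕ × List ℕ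

variable {K : Type} (𝓕 : Filter ℕ) (R : Ix → K → Set ℕ)

def Pos (θ : List ℕ → K) (A : Set ℕ) : Prop :=
  ∀ I : Finset Ix, ∃ᶠ x in 𝓕, x ∈ A ∧ ∀ i ∈ I, x ∈ R i (θ i.2.2)

def Cond (D : Finset (List ℕ)) (q : List ℕ → K) (A : Set ℕ) : Prop :=
  ∀ θ : List ℕ → K, (∀ l ∈ D, θ l = q l) → Pos 𝓕 R θ A

def Full (A : Set ℕ) : Prop := ∃ D q, Cond 𝓕 R D q A

def RR (S : Sys) (f : List ℕ → K) (i : Ix) (v : K) : Set ℕ :=
  {x | S.Stop i.1 i.2.1 → f (S.φ i.1 i.2.1 x :: i.2.2) = v}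

variable {𝓕 R} {D D' : Finset (List ℕ)} {q q' : List ℕ → K} {A B : Set ℕ}

theorem Cond.mono (h : Cond 𝓕 R D q A) (h1 : A ⊆ B) : Cond 𝓕 R D q B :=
  fun θ hθ I => (h θ hθ I).mono fun _ hx => ⟨h1 hx.1, hx.2⟩

theorem Cond.ext (h : Cond 𝓕 R D q A) (h1 : D ⊆ D') (h2 : ∀ l ∈ D, q' l = q l) :
    Cond 𝓕 R D' q' A := fun θ hθ => h θ fun l hl => (hθ l (h1 hl)).trans (h2 l hl)

theorem Cond.inter (h : Cond 𝓕 R D q A) (h1 : B ∈ 𝓕) : Cond 𝓕 R D q (A ∩ B) :=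
  fun θ hθ I => ((h θ hθ I).and_eventually h1).mono fun _ hx => ⟨⟨hx.1.1, hx.2⟩, hx.1.2⟩

theorem Cond.fix (h : Cond 𝓕 R D q A) (J : Finset Ix) (h1 : ∀ i ∈ J, i.2.2 ∈ D) :
    Cond 𝓕 R D q (A ∩ {x | ∀ i ∈ J, x ∈ R i (q i.2.2)}) :=
  fun θ hθ I => (h θ hθ (I ∪ J)).mono fun _ hx => ⟨⟨hx.1, fun i hi =>
    hθ _ (h1 i hi) ▸ hx.2 i (Finset.mem_union_right _ hi)⟩,
    fun i hi => hx.2 i (Finset.mem_union_left _ hi)⟩

theorem Cond.freq (h : Cond 𝓕 R D q A) : ∃ᶠ x in 𝓕, x ∈ A :=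
  (h q (fun _ _ => rfl) ∅).mono fun _ hx => hx.1

theorem Cond.union (h : Cond 𝓕 R D q (A ∪ B)) (hA : ¬ Cond 𝓕 R D q A) :
    ∃ D' q', D ⊆ D' ∧ (∀ l ∈ D, q' l = q l) ∧ Cond 𝓕 R D' q' B := by
  simp only [Cond, Pos, not_forall] at hA
  obtain ⟨θ0, h1, I, h2⟩ := hA
  refine ⟨D ∪ I.image (·.2.2), θ0, Finset.subset_union_left, h1, fun θ hθ J => ?_⟩
  refine ((h θ (fun l hl => (hθ l (Finset.mem_union_left _ hl)).trans (h1 l hl))
    (I ∪ J)).and_eventually (not_frequently.1 h2)).mono fun x ⟨⟨h3, h4⟩, h5⟩ =>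
      ⟨h3.resolve_left fun h6 => h5 ⟨h6, fun i hi => ?_⟩,
        fun i hi => h4 i (Finset.mem_union_right _ hi)⟩
  rw [← hθ _ (Finset.mem_union_right _ (Finset.mem_image_of_mem _ hi))]
  exact h4 i (Finset.mem_union_left _ hi)

theorem Cond.biUnion {ι : Type} {W : ι → Set ℕ} (s : Finset ι) (h : Cond 𝓕 R D q (⋃ i ∈ s, W i)) :
    ∃ i ∈ s, ∃ D' q', D ⊆ D' ∧ (∀ l ∈ D, q' l = q l) ∧ Cond 𝓕 R D' q' (W i) := by
  induction s using Finset.induction_on generalizing D q with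
  | empty => simpa using h.freq.exists
  | insert a s _ ih =>
    rw [Finset.set_biUnion_insert] at h
    by_cases h1 : Cond 𝓕 R D q (W a)
    · exact ⟨a, Finset.mem_insert_self _ _, D, q, le_rfl, fun _ _ => rfl, h1⟩
    · obtain ⟨D1, q1, h2, h3, h4⟩ := h.union h1
      obtain ⟨i, hi, D2, q2, h5, h6, h7⟩ := ih h4
      exact ⟨i, Finset.mem_insert_of_mem hi, D2, q2, h2.trans h5,
        fun l hl => (h6 l (h2 hl)).trans (h3 l hl), h7⟩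

theorem Full.mono (h : Full 𝓕 R A) (h1 : A ⊆ B) : Full 𝓕 R B :=
  let ⟨D, q, h⟩ := h
  ⟨D, q, h.mono h1⟩

theorem Full.inter (h : Full 𝓕 R A) (h1 : B ∈ 𝓕) : Full 𝓕 R (A ∩ B) :=
  let ⟨D, q, h⟩ := h
  ⟨D, q, h.inter h1⟩

theorem Full.nonempty (h : Full 𝓕 R A) : A.Nonempty :=
  let ⟨_, _, h⟩ := h
  h.freq.exists

theorem Full.union (h : Full 𝓕 R (A ∪ B)) (hA : ¬ Full 𝓕 R A) : Full 𝓕 R B :=
  let ⟨D, q, h⟩ := h
  let ⟨D', q', _, _, h⟩ := h.union fun h => hA ⟨D, q, h⟩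
  ⟨D', q', h⟩

theorem Full.biUnion {ι : Type} {W : ι → Set ℕ} (s : Finset ι) (h : Full 𝓕 R (⋃ i ∈ s, W i)) :
    ∃ i ∈ s, Full 𝓕 R (W i) :=
  let ⟨_, _, h⟩ := h
  let ⟨i, hi, D', q', _, _, h⟩ := h.biUnion s
  ⟨i, hi, D', q', h⟩

theorem step {J : Type} [Fintype J] [Countable K] [Inhabited K] (S : Sys)
    (hc : 𝓕.IsCountablyGenerated) (hφ : ∀ e t m, ∀ᶠ x in 𝓕, S.Stop e t → m < S.φ e t x)
    (h0 : ∀ θ, Pos 𝓕 R θ Set.univ) (G : List ℕ → J) (X : ℕ × List ℕ → Set (List ℕ)) :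
    ∃ 𝓖 ≤ 𝓕, 𝓖.IsCountablyGenerated ∧ ∃ (θ : List ℕ → K) (G' : List ℕ → J),
      (∀ θ', Pos 𝓖 (RR S θ) θ' Set.univ) ∧ (∀ l, ∀ᶠ x in 𝓖, G (x :: l) = G' l) ∧
      (∀ i, R i (θ i.2.2) ∈ 𝓖) ∧ ∀ a j, (X a).Infinite → ∃ l ∈ X a, θ l = j := by
  obtain ⟨C, hC⟩ := 𝓕.exists_antitone_basis
  obtain ⟨σ, h1, h2⟩ := seq (α := {p : Finset (List ℕ) × (List ℕ → K) × Set ℕ //
      Cond 𝓕 R p.1 p.2.1 p.2.2}) (ι := Ix ⊕ (Finset Ix × List K × ℕ) ⊕ (ℕ × List ℕ) × K)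
    (fun p p' => p.1.1 ⊆ p'.1.1 ∧ (∀ l ∈ p.1.1, p'.1.2.1 l = p.1.2.1 l) ∧ p'.1.2.2 ⊆ p.1.2.2)
    (fun _ => ⟨le_rfl, fun _ _ => rfl, le_rfl⟩) (fun _ _ _ h h' => ⟨h.1.trans h'.1,
      fun l hl => (h'.2.1 l (h.1 hl)).trans (h.2.1 l hl), h'.2.2.trans h.2.2⟩)
    (fun i p p' => Sum.elim (fun i : Ix => i.2.2 ∈ p'.1.1 ∧ p'.1.2.2 ⊆ R i (p'.1.2.1 i.2.2) ∧
      ∃ c, ∀ x ∈ p'.1.2.2, G (x :: i.2.2) = c) (Sum.elim (fun i : Finset Ix × List K × ℕ =>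
        ∃ x ∈ p.1.2.2 ∩ C i.2.2, ∀ j ∈ i.1, S.Stop j.1 j.2.1 → S.φ j.1 j.2.1 x :: j.2.2 ∈ p'.1.1 ∧
          p'.1.2.1 (S.φ j.1 j.2.1 x :: j.2.2) = i.2.1.getD (encode j.2.2) default)
      fun i : (ℕ × List ℕ) × K => (X i.1).Infinite → ∃ l ∈ X i.1, l ∈ p'.1.1 ∧ p'.1.2.1 l = i.2) i)
    (by
      rintro (i | ⟨I, w, n⟩ | ⟨a, j⟩) ⟨⟨D, q, A⟩, h⟩
      · obtain ⟨c, -, D', q', k1, k2, k3⟩ := Cond.biUnion (W := fun c => A ∩ {x | G (x :: i.2.2) = c})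
          Finset.univ (Cond.mono (h.ext (Finset.subset_insert i.2.2 D) fun _ _ => rfl)
            fun x hx => by simpa using hx)
        exact ⟨⟨(D', q', _), k3.fix {i} (by simpa using k1 (Finset.mem_insert_self _ _))⟩,
          ⟨(Finset.subset_insert _ _).trans k1, fun l hl => k2 l (Finset.mem_insert_of_mem hl),
            fun x hx => hx.1.1⟩, k1 (Finset.mem_insert_self _ _),
          fun x hx => hx.2 i (Finset.mem_singleton_self _), c, fun x hx => hx.1.2⟩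
      · obtain ⟨x, k1, k2, k3⟩ := (h.freq.and_eventually (Eventually.and (hC.mem n)
          ((eventually_all_finset I).2 fun j _ => hφ j.1 j.2.1 (D.sup List.headI)))).exists
        refine ⟨⟨(D ∪ I.image fun j => S.φ j.1 j.2.1 x :: j.2.2, fun l => if l ∈ D then q l else
          w.getD (encode l.tail) default, A), h.ext Finset.subset_union_left fun l hl => if_pos hl⟩,
          ⟨Finset.subset_union_left, fun l hl => if_pos hl, le_rfl⟩, x, ⟨k1, k2⟩, fun j hj k4 =>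
          ⟨Finset.mem_union_right _ (Finset.mem_image_of_mem _ hj), if_neg fun k5 =>
            (k3 j hj k4).not_ge (Finset.le_sup (f := List.headI) k5)⟩⟩
      · by_cases k1 : (X a).Infinite
        · obtain ⟨l, k2, k3⟩ := k1.exists_notMem_finset D
          exact ⟨⟨(insert l D, fun l => if l ∈ D then q l else j, A), h.ext (Finset.subset_insert _ _)
            fun l hl => if_pos hl⟩, ⟨Finset.subset_insert _ _, fun l hl => if_pos hl, le_rfl⟩,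
            fun _ => ⟨l, k2, Finset.mem_insert_self _ _, if_neg k3⟩⟩
        · exact ⟨⟨(D, q, A), h⟩, ⟨le_rfl, fun _ _ => rfl, le_rfl⟩, fun h => absurd h k1⟩)
    ⟨(∅, default, Set.univ), fun θ _ => h0 θ⟩
  choose N _ h3 h4 c h5 using fun i => h2 (.inl i) 0
  have h6 : ∀ k, ∀ l ∈ (σ k).1.1, (σ (N (0, [], l) + 1)).1.2.1 l = (σ k).1.2.1 l := fun k l hl =>
    ((h1 _ _ (le_max_right k _)).2.1 l (h3 (0, [], l))).symm.trans
      ((h1 _ _ (le_max_left k _)).2.1 l hl)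
  have h7 := HasAntitoneBasis.iInf_principal (s := fun n => (σ n).1.2.2 ∩ C n) fun a b h =>
    Set.inter_subset_inter (h1 a b h).2.2 (hC.antitone h)
  refine ⟨_, hC.1.ge_iff.2 fun n _ => mem_of_superset (h7.mem n) Set.inter_subset_right,
    inferInstance, fun l => (σ (N (0, [], l) + 1)).1.2.1 l, fun l => c (0, [], l),
    fun θ' I => h7.1.frequently_iff.2 fun n _ => ?_, fun l => mem_of_superset (h7.mem _)
      fun x hx => h5 (0, [], l) x hx.1, fun i => mem_of_superset (h7.mem _)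
      fun x hx => (congrArg (x ∈ R i ·) (h6 _ _ (h3 i))).mpr (h4 i hx.1), fun a j h => ?_⟩
  · obtain ⟨m, k1, x, k2, k3⟩ := h2 (.inr (.inl (I, (List.range (I.sup (encode ·.2.2) + 1)).map
      (fun b => θ' (Denumerable.ofNat _ b)), n))) n
    refine ⟨x, ⟨(h1 _ _ k1).2.2 k2.1, k2.2⟩, trivial, fun i hi k4 => ?_⟩
    have : encode i.2.2 < I.sup (encode ·.2.2) + 1 :=
      Nat.lt_succ_of_le (Finset.le_sup (f := (encode ·.2.2)) hi)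
    simp [h6 _ _ (k3 i hi k4).1, (k3 i hi k4).2, this]
  · obtain ⟨m, -, k1⟩ := h2 (.inr (.inr (a, j))) 0
    obtain ⟨l, k2, k3, k4⟩ := k1 h
    exact ⟨l, k2, (h6 _ _ k3).trans k4⟩

end Pool.Agent.H.MP_40eef6_lc
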