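import Pool.Agent.H.MP_40eef6_lc.A

set_option autoImplicit false

namespace Pool.Agent.H.MP_40eef6_lc

open Filter Pool.Agent.Lib.helper21.Der
open Pool.Agent.H.MP_f4da35_lc (Sys)
open Pool.Agent.H.MP_833c5c_lc (OK and' bind')
open scoped Classical

structure Ctx (S : Sys) (K : Type) where
  𝓕 : Filter ℕ
  f : List ℕ → K
  E : List ℕ → Set ℕ
  W : ℕ → List ℕ → Prop
  cg : 𝓕.IsCountablyGenerated
  hE : ∀ t, E t ∈ 𝓕
  hB : ∀ t, E t ⊆ S.B t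
  hφ : ∀ e t m, ∀ᶠ x in 𝓕, S.Stop e t → S.φ e t x ∈ S.L e (x :: t) ∧ m < S.φ e t x
  hT : ∀ e n t, D0 (S.T e n) t → DF 𝓕.sets (S.T e n) t
  hL : ∀ e a t, a ∈ S.L e t → DF 𝓕.sets (fun t => a ∈ S.O e t) t
  Wm : ∀ e t t', t <:+ t' → W e t → W e t'
  hW : ∀ e t, (S.L e t).Infinite → DF 𝓕.sets (W e) t
  g1 : ∀ θ, Pos 𝓕 (RR S f) θ Set.univ

variable {S : Sys} {K : Type}

def Has (S : Sys) (f : List ℕ → K) (m : ℕ) (j : K) (e : ℕ) (t : List ℕ) : Prop :=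
  ∃ l : List ℕ, l.length = m ∧ l.Pairwise (· > ·) ∧ (∀ a ∈ l, a ∈ S.O e t) ∧ f l = j

theorem Has.mono {f : List ℕ → K} {m : ℕ} {j : K} {e : ℕ} {t t' : List ℕ} (h : Has S f m j e t)
    (h1 : t <:+ t') : Has S f m j e t' :=
  let ⟨l, h2, h3, h4, h5⟩ := h
  ⟨l, h2, h3, fun a ha => S.mono' h1 (h4 a ha), h5⟩

def Good (c : Ctx S K) (m e : ℕ) (s : List ℕ) : Prop := (e ≤ s.length ∧ S.Fr e s) ∨ c.W e s ∨
  ∃ j j', j ≠ j' ∧ Has S c.f m j e s ∧ Has S c.f m j' e s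

def Concl {J : Type} (c : Ctx S K) (m : ℕ) (G : List ℕ → J) (Q : ℕ → List ℕ → Prop) : Prop :=
  ∃ 𝒯 : Set (List ℕ), 𝒯.Nonempty ∧ (∀ s ∈ 𝒯, OK c.E s) ∧
    (∀ s ∈ 𝒯, ∀ s' ∈ 𝒯, ∃ u ∈ 𝒯, s <:+ u ∧ s' <:+ u) ∧ (∀ i, ∀ s ∈ 𝒯, ∃ u ∈ 𝒯, s <:+ u ∧ Q i u) ∧
    (∃ b, ∀ s ∈ 𝒯, ∀ l : List ℕ, l.Sublist s → l.length = m → G l = b) ∧ ∀ e, ∃ s ∈ 𝒯, Good c m e s

theorem len_der (F : Filter ℕ) (m : ℕ) :
    ∀ n (t : List ℕ), m ≤ t.length + n → DF F.sets (fun s => m ≤ s.length) t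
  | 0, _, h => .of h
  | n + 1, _, h => .step _ univ_mem fun _ _ => len_der F m n _ (by simp; omega)

theorem ok_ind {E : List ℕ → Set ℕ} {P : List ℕ → Prop} {t t' : List ℕ} (h : t <:+ t')
    (hO : OK E t') (h0 : P t) (h1 : ∀ s x, t <:+ s → x ∈ E s → P s → P (x :: s)) : P t' := by
  obtain ⟨s, rfl⟩ := h
  induction s with
  | nil => exact h0
  | cons x s ih => exact h1 _ x (List.suffix_append _ _) hO.2 (ih hO.1)

theorem ok_mono {E E' : List ℕ → Set ℕ} (h : ∀ t, E t ⊆ E' t) : ∀ {t}, OK E t → OK E' t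
  | [], _ => trivial
  | _ :: _, h' => ⟨ok_mono h h'.1, h _ h'.2⟩

theorem der_anti {e m n : ℕ} {t : List ℕ} (h : m ≤ n) (h1 : D0 (S.T e n) t) : D0 (S.T e m) t :=
  DF.mono (fun _ h => h.imp_right fun ⟨h2, x, h3, h4⟩ => ⟨h2, x, h3, by omega⟩) h1

theorem fr_ext {e n : ℕ} {t t' : List ℕ} (h : t <:+ t') (hO : OK S.B t')
    (he : e ≤ t.length) (h0 : ¬ D0 (S.T e n) t) : ¬ D0 (S.T e n) t' :=
  ok_ind (P := fun t => ¬ D0 (S.T e n) t) h hO h0 fun _ _ hs hx h1 h2 =>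
    (hx e (he.trans hs.length_le)).2 ⟨n, h1⟩ (der_anti (Nat.find_min' _ h1) h2)

abbrev Ctx.Full (c : Ctx S K) : Set ℕ → Prop := MP_40eef6_lc.Full c.𝓕 (RR S c.f)

structure Frame (c : Ctx S K) (k : ℕ) where
  N : Fin k → ℕ → Set ℕ
  A1 : Set ℕ
  full : c.Full A1
  un : ∀ i A, A ⊆ A1 → c.Full A → ∃ x ∈ A, c.Full (A ∩ N i x)
  cov : ∀ y ∈ A1, ¬ c.Full (A1 \ ⋃ i, N i y)

theorem exists_frame (c : Ctx S K) [Inhabited K] {k : ℕ} (G : ℕ → ℕ → Fin k) :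
    ∃ Φ : Frame c k, ∀ i, ∃ b, ∀ y, ∀ z ∈ Φ.N i y, G y z = b := by
  obtain ⟨⟨C, A⟩, ⟨h1, h2⟩, h3⟩ := (measure fun p : Finset (Fin k) × Set ℕ => p.1.card).wf.has_min
    {p | c.Full p.2 ∧ ∀ y ∈ p.2, ¬ c.Full (p.2 \ {z | G y z ∈ p.1})}
    ⟨(Finset.univ, Set.univ), ⟨∅, default, fun θ _ => c.g1 θ⟩, fun y _ h => by
      simpa using h.nonempty⟩
  obtain ⟨b0, h4⟩ : C.Nonempty := Finset.nonempty_iff_ne_empty.2 fun h => by
    obtain ⟨y, hy⟩ := h1.nonempty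
    exact h2 y hy (by simpa [h] using h1)
  refine ⟨⟨fun i y => {z | G y z = if i ∈ C then i else b0}, A, h1, fun i A' k1 k2 => ?_,
    fun y hy h => h2 y hy (h.mono fun z hz => ⟨hz.1, fun k1 => hz.2 (Set.mem_iUnion.2
      ⟨G y z, (if_pos k1).symm⟩)⟩)⟩, fun i => ⟨_, fun _ _ h => h⟩⟩
  have k3 : (if i ∈ C then i else b0) ∈ C := by split_ifs <;> assumption
  generalize (if i ∈ C then i else b0) = b at k3 ⊢
  by_contra k4
  refine h3 (C.erase b, A') ⟨k2, fun y hy h => k4 ⟨y, hy, Full.union (h.mono fun z hz => ?_)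
    (h2 y (k1 hy))⟩⟩ (Finset.card_erase_lt_of_mem k3)
  by_cases k5 : G y z = b
  · exact Or.inr ⟨hz.1, k5⟩
  · exact Or.inl ⟨k1 hz.1, fun k6 => hz.2 (Finset.mem_erase.2 ⟨k5, k6⟩)⟩

namespace Frame

variable {c : Ctx S K} {k : ℕ} (Φ : Frame c k)

def E (i : Fin k) (t : List ℕ) : Set ℕ := c.E t ∩ {x | ∀ y ∈ t, x ∈ Φ.N i y}

def C (i : Fin k) (t : List ℕ) (A : Set ℕ) : Prop :=
  OK (Φ.E i) t ∧ (∀ y ∈ t, A ⊆ Φ.N i y) ∧ c.Full A ∧ A ⊆ Φ.A1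

variable {Φ}

theorem C.shrink {i : Fin k} {t : List ℕ} {A A' : Set ℕ} (h : Φ.C i t A) (h1 : A' ⊆ A)
    (h2 : c.Full A') : Φ.C i t A' :=
  ⟨h.1, fun y hy => h1.trans (h.2.1 y hy), h2, h1.trans h.2.2.2⟩

theorem C.one {i : Fin k} {t : List ℕ} {A D : Set ℕ} (h : Φ.C i t A) (hD : D ∈ c.𝓕) :
    ∃ x ∈ A ∩ D, ∃ A' ⊆ A, Φ.C i (x :: t) A' := by
  obtain ⟨x, hx, h1⟩ := Φ.un i ((A ∩ D) ∩ c.E t) (fun z hz => h.2.2.2 hz.1.1)
    ((h.2.2.1.inter hD).inter (c.hE t))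
  refine ⟨x, hx.1, _, fun z hz => hz.1.1.1, ⟨h.1, hx.2, fun y hy => h.2.1 y hy hx.1.1⟩,
    fun y hy z hz => ?_, h1, fun z hz => h.2.2.2 hz.1.1.1⟩
  rcases List.mem_cons.1 hy with rfl | hy
  · exact hz.2
  · exact h.2.1 y hy hz.1.1.1

theorem follow {i : Fin k} {P : List ℕ → Prop} {t : List ℕ} (hP : DF c.𝓕.sets P t) :
    ∀ A, Φ.C i t A → ∃ s, ∃ A' ⊆ A, Φ.C i (s ++ t) A' ∧ P (s ++ t) ∧ ∀ y ∈ s, y ∈ A := by
  induction hP with
  | of h => exact fun A hA => ⟨[], A, le_rfl, hA, h, by simp⟩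
  | step D hD _ ih =>
    intro A hA
    obtain ⟨x, hx, A', h1, h2⟩ := hA.one hD
    obtain ⟨s, A'', h3, h4, h5, h6⟩ := ih x hx.2 A' h2
    refine ⟨s ++ [x], A'', h3.trans h1, by simpa using h4, by simpa using h5, fun y hy => ?_⟩
    rcases List.mem_append.1 hy with hy | hy
    · exact h1 (h6 y hy)
    · exact List.mem_singleton.1 hy ▸ hx.1

theorem run [NeZero k] (j : K) (e : Fin k → ℕ) (t : Fin k → List ℕ) (A : Set ℕ)
    (hC : ∀ i, Φ.C i (t i) A) (hR : ∀ i, ¬ S.Fr (e i) (t i)) : ∃ i s, ∃ A' ⊆ A,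
      Φ.C i (s ++ t i) A' ∧ (c.W (e i) (s ++ t i) ∨ Has S c.f 2 j (e i) (s ++ t i)) := by
  obtain ⟨D, q, hn⟩ := (hC 0).2.2.1
  generalize hm : D.sup List.headI + 1 = n
  let ι := {p : Fin k × List ℕ // OK (Φ.E p.1) (p.2 ++ t p.1) ∧ (∀ y ∈ p.2, y ∈ A) ∧
    S.T (e p.1) n (p.2 ++ t p.1)}
  obtain ⟨Z, hZ⟩ := isCompact_univ.elim_finite_subcover
    (fun p : ι => {χ : ℕ → Fin k | ∀ y ∈ p.1.2.toFinset, χ y = p.1.1}) (fun p => by
      simp only [Set.ofPred_forall]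
      exact isOpen_biInter_finset fun y _ => (isOpen_discrete {b : Fin k | b = p.1.1}).preimage
        (f := fun χ : ℕ → Fin k => χ y) (continuous_apply y)) fun χ _ => by
      obtain ⟨i, -, hi⟩ := Full.biUnion (W := fun i => A ∩ {y | χ y = i}) Finset.univ
        ((hC 0).2.2.1.mono fun y hy => by simpa using hy)
      obtain ⟨s, A', -, h2, h3, h4⟩ := follow (c.hT (e i) n (t i)
        (not_not.1 fun h => hR i ⟨n, h⟩)) _ ((hC i).shrink Set.inter_subset_left hi)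
      exact Set.mem_iUnion.2 ⟨⟨(i, s), h2.1, fun y hy => (h4 y hy).1, h3⟩,
        fun y hy => (h4 y (List.mem_toFinset.1 hy)).2⟩
  have h1 : ∀ p : ι, ∃ x, ¬ (S.L (e p.1.1) (p.1.2 ++ t p.1.1)).Infinite →
      x ∈ S.O (e p.1.1) (p.1.2 ++ t p.1.1) ∧ n ≤ x := fun p => by
    rcases p.2.2.2 with h | ⟨-, x, h⟩
    · exact ⟨0, fun h' => absurd h h'⟩
    · exact ⟨x, fun _ => h⟩
  choose X hX using h1
  obtain ⟨A', h3, h2, h0⟩ : ∃ A' ⊆ A, c.Full A' ∧ ∀ p ∈ Z, n ≤ X p →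
      A' ⊆ RR S c.f (e p.1.1, p.1.2 ++ t p.1.1, [X p]) j := by
    refine ⟨_, Set.inter_subset_left, ⟨_, _, (hn.ext (q' := fun l => if l ∈ D then q l else j)
      (D' := D ∪ Z.image fun p => [X p]) Finset.subset_union_left fun l hl => if_pos hl).fix
      (Z.image fun p => (e p.1.1, p.1.2 ++ t p.1.1, [X p])) fun i hi => ?_⟩, fun p hp h x hx => ?_⟩
    · obtain ⟨p, hp, rfl⟩ := Finset.mem_image.1 hi
      exact Finset.mem_union_right _ (Finset.mem_image_of_mem _ hp)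
    · have := hx.2 _ (Finset.mem_image_of_mem _ hp)
      rwa [if_neg fun h' => by
        have : X p ≤ _ := Finset.le_sup (f := List.headI) h'
        omega] at this
  obtain ⟨p, hp, h4⟩ := Full.biUnion (W := fun p : ι => (⋃ y ∈ p.1.2.toFinset,
      Φ.A1 \ ⋃ i, Φ.N i y) ∪ A' ∩ {z | ∀ y ∈ p.1.2, z ∈ Φ.N p.1.1 y}) Z
      (h2.mono fun z hz => by
    obtain ⟨p, hp, h5⟩ := Set.mem_iUnion₂.1 (hZ (Set.mem_univ fun y =>
      if h : ∃ i, z ∈ Φ.N i y then h.choose else 0))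
    refine Set.mem_iUnion₂.2 ⟨p, hp, or_iff_not_imp_left.2 fun h6 => ⟨hz, fun y hy => ?_⟩⟩
    have h8 : ∃ i, z ∈ Φ.N i y := Set.mem_iUnion.1 (not_not.1 fun h => h6 (Set.mem_iUnion₂.2
      ⟨y, List.mem_toFinset.2 hy, (hC 0).2.2.2 (h3 hz), h⟩))
    rw [← (dif_pos h8).symm.trans (h5 y (List.mem_toFinset.2 hy))]
    exact h8.choose_spec)
  replace h4 := h4.union fun h => by
    obtain ⟨y, hy, h5⟩ := Full.biUnion _ h
    exact Φ.cov y ((hC 0).2.2.2 (p.2.2.1 y (List.mem_toFinset.1 hy))) h5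
  have h5 : Φ.C p.1.1 (p.1.2 ++ t p.1.1) _ := ⟨p.2.1, fun y hy z hz => by
    rcases List.mem_append.1 hy with hy | hy
    · exact hz.2 y hy
    · exact (hC _).2.1 y hy (h3 hz.1), h4, fun z hz => (hC 0).2.2.2 (h3 hz.1)⟩
  by_cases h6 : (S.L (e p.1.1) (p.1.2 ++ t p.1.1)).Infinite
  · obtain ⟨s, A'', k1, k2, k3, -⟩ := follow (c.hW _ _ h6) _ h5
    exact ⟨p.1.1, s ++ p.1.2, A'', fun z hz => h3 (k1 hz).1, by simpa using k2,
      Or.inl (by simpa using k3)⟩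
  · have h7 := (p.2.2.2.resolve_left h6).1
    obtain ⟨x, hx, A'', k1, k2⟩ := h5.one (c.hφ (e p.1.1) (p.1.2 ++ t p.1.1) (X p))
    obtain ⟨k3, k4⟩ := hx.2 h7
    obtain ⟨s, A''', k5, k6, k7, -⟩ := follow (c.hL _ _ _ k3) _ k2
    refine ⟨p.1.1, s ++ x :: p.1.2, A''', fun z hz => h3 (k1 (k5 hz)).1, by simpa using k6,
      Or.inr ⟨[_, X p], rfl, by simpa using k4, ?_, h0 p hp (hX p h6).2 hx.1.1 h7⟩⟩
    simp only [List.mem_cons, List.not_mem_nil, or_false, forall_eq_or_imp, forall_eq]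
    exact ⟨by simpa using k7, S.mono' (by simp [List.suffix_append_of_suffix]) (hX p h6).1⟩

variable (Φ) in
structure St where
  t : Fin k → List ℕ
  A : Set ℕ
  c : ∀ i, Φ.C i (t i) A

def St.le (p q : St Φ) : Prop := ∀ i, p.t i <:+ q.t i

theorem St.ext' (p : St Φ) (i : Fin k) (s : List ℕ) {A : Set ℕ} (h1 : A ⊆ p.A)
    (h2 : Φ.C i (s ++ p.t i) A) :
    ∃ q : St Φ, p.le q ∧ q.t = Function.update p.t i (s ++ p.t i) := by
  refine ⟨⟨Function.update p.t i (s ++ p.t i), A, fun k => ?_⟩, fun k => ?_, rfl⟩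
  all_goals by_cases h : k = i
  · simpa [h] using h2
  · simpa [h] using (p.c k).shrink h1 h2.2.2.1
  · simp [h]
  · simp [h]

theorem St.goal (p : St Φ) {P : Fin k → List ℕ → Prop} (h : ∀ i t, DF c.𝓕.sets (P i) t) :
    ∃ q : St Φ, p.le q ∧ ∀ i, P i (q.t i) := by
  suffices ∀ s : Finset (Fin k), ∃ q : St Φ, p.le q ∧ ∀ i ∈ s, P i (q.t i) by
    simpa using this Finset.univ
  intro s
  induction s using Finset.induction_on with
  | empty => exact ⟨p, fun _ => List.suffix_refl _, by simp⟩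
  | insert a s ha ih =>
    obtain ⟨q, h1, h2⟩ := ih
    obtain ⟨u, A, h3, h4, h5, -⟩ := follow (h a (q.t a)) _ (q.c a)
    obtain ⟨r, h6, h7⟩ := q.ext' a u h3 h4
    refine ⟨r, fun i => (h1 i).trans (h6 i), fun i hi => h7 ▸ ?_⟩
    rcases Finset.mem_insert.1 hi with rfl | hi
    · simpa using h5
    · simpa [ne_of_mem_of_not_mem hi ha] using h2 i hi

theorem St.ok (p : St Φ) (i : Fin k) : OK c.E (p.t i) :=
  ok_mono (fun _ => Set.inter_subset_left) (p.c i).1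

theorem St.req [NeZero k] [Fintype K] (hk : k < Fintype.card K) (p : St Φ) (e : Fin k → ℕ) :
    ∃ q : St Φ, p.le q ∧ ∃ i, Good c 2 (e i) (q.t i) := by
  obtain ⟨q0, k0, l0⟩ := p.goal (P := fun i s => e i ≤ s.length)
    fun i t => len_der _ _ (e i) t (by omega)
  obtain ⟨q, h1, h2⟩ : ∃ q : St Φ, q0.le q ∧ ∀ j ∈ (Finset.univ : Finset K), ∃ i,
      S.Fr (e i) (q.t i) ∨ c.W (e i) (q.t i) ∨ Has S c.f 2 j (e i) (q.t i) := by
    induction (Finset.univ : Finset K) using Finset.induction_on with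
    | empty => exact ⟨q0, fun _ => List.suffix_refl _, by simp⟩
    | insert j s _ ih =>
      obtain ⟨q, h1, h2⟩ := ih
      by_cases h : ∃ i, S.Fr (e i) (q.t i)
      · exact ⟨q, h1, fun _ _ => h.imp fun _ => Or.inl⟩
      obtain ⟨i, u, A, h3, h4, h5⟩ := run j e q.t q.A q.c (not_exists.1 h)
      obtain ⟨r, h6, h7⟩ := q.ext' i u h3 h4
      refine ⟨r, fun i => (h1 i).trans (h6 i), fun j' hj => ?_⟩
      rcases Finset.mem_insert.1 hj with rfl | hj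
      · exact ⟨i, Or.inr (by simpa [h7] using h5)⟩
      · exact (h2 j' hj).imp fun i h8 => Or.inr ((h8.resolve_left (not_exists.1 h i)).imp
          (c.Wm _ _ _ (h6 i)) (·.mono (h6 i)))
  refine ⟨q, fun i => (k0 i).trans (h1 i), by_contra fun h => ?_⟩
  simp only [Good, not_exists, not_or, not_and] at h
  choose i hi using fun j => h2 j (Finset.mem_univ _)
  obtain ⟨j, j', h3, h4⟩ := Fintype.exists_ne_map_eq_of_card_lt i (by simpa using hk)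
  have h5 := fun j => ((hi j).resolve_left ((h _).1 ((l0 _).trans
    (h1 _).length_le))).resolve_left (h _).2.1
  exact (h _).2.2 j j' h3 (h5 j) (h4 ▸ h5 j')

theorem pairwise {i : Fin k} : ∀ {t : List ℕ}, OK (Φ.E i) t → t.Pairwise fun z y => z ∈ Φ.N i y
  | [], _ => .nil
  | _ :: _, h => .cons h.2.2 (pairwise h.1)

end Frame

theorem base [Fintype K] [Inhabited K] {k : ℕ} [NeZero k] (hk : k < Fintype.card K) (c : Ctx S K)
    (G : List ℕ → Fin k) (Q : ℕ → List ℕ → Prop) (hQ : ∀ i t, DF c.𝓕.sets (Q i) t) :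
    Concl c 2 G Q := by
  obtain ⟨Φ, hΦ⟩ := exists_frame c fun y z => G [z, y]
  obtain ⟨σ, h1, h2⟩ := seq (ι := (Fin k → ℕ) ⊕ ℕ) (Frame.St.le (Φ := Φ))
    (fun _ _ => List.suffix_refl _) (fun _ _ _ h h' i => (h i).trans (h' i))
    (fun i _ q => Sum.elim (fun e => ∃ i, Good c 2 (e i) (q.t i)) (fun n => ∀ i, Q n (q.t i)) i)
    (by
      rintro (e | n) p
      · exact p.req hk e
      · exact p.goal fun _ => hQ n)
    ⟨fun _ => [], Φ.A1, fun _ => ⟨trivial, by simp, Φ.full, le_rfl⟩⟩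
  obtain ⟨i, hi⟩ : ∃ i, ∀ e, ∃ k, Good c 2 e ((σ k).t i) := by
    by_contra h
    simp only [not_exists, not_forall] at h
    choose e he using h
    obtain ⟨l, -, i, h⟩ := h2 (.inl e) 0
    exact he i _ h
  obtain ⟨b, hb⟩ := hΦ i
  refine ⟨Set.range fun k => (σ k).t i, Set.range_nonempty _, ?_, ?_, ?_, ⟨b, ?_⟩,
    fun e => let ⟨k, h⟩ := hi e; ⟨_, ⟨k, rfl⟩, h⟩⟩
  · rintro _ ⟨k, rfl⟩
    exact (σ k).ok i
  · rintro _ ⟨k, rfl⟩ _ ⟨l, rfl⟩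
    exact ⟨_, ⟨max k l, rfl⟩, h1 _ _ (le_max_left _ _) i, h1 _ _ (le_max_right _ _) i⟩
  · rintro n _ ⟨k, rfl⟩
    obtain ⟨l, h3, h4⟩ := h2 (.inr n) k
    exact ⟨_, ⟨l + 1, rfl⟩, h1 _ _ (by omega) i, h4 i⟩
  · rintro _ ⟨k, rfl⟩ l h3 h4
    obtain ⟨z, y, rfl⟩ := List.length_eq_two.1 h4
    exact hb y z (List.pairwise_iff_forall_sublist.1 (Frame.pairwise ((σ k).c i).1) h3)

end Pool.Agent.H.MP_40eef6_lc
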