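import Pool.Agent.H.MP_40eef6_lc.B

set_option autoImplicit false

namespace Pool.Agent.H.MP_40eef6_lc

open Filter Pool.Agent.Lib.helper21.Der Pool.Agent.Lib.helper21.Fn
open Pool.Agent.H.MP_f4da35_lc (Sys S0)
open Pool.Agent.H.MP_833c5c_lc (OK and' bind')
open scoped Classical

variable {S : Sys} {K : Type}

theorem df_mono {F F' : Filter ℕ} (h : F' ≤ F) {P : List ℕ → Prop} {t : List ℕ}
    (h1 : DF F.sets P t) : DF F'.sets P t := by
  induction h1 with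
  | of h => exact .of h
  | step A hA _ ih => exact .step A (h hA) ih

theorem df_suf {F : Set (Set ℕ)} {P : List ℕ → Prop} {t : List ℕ} (h1 : DF F P t) :
    DF F (fun s => t <:+ s ∧ P s) t := by
  induction h1 with
  | of h => exact .of ⟨List.suffix_refl _, h⟩
  | step A hA _ ih =>
    exact .step A hA fun x hx => (ih x hx).mono fun _ h => ⟨(List.suffix_cons _ _).trans h.1, h.2⟩

theorem Good.mono {c : Ctx S K} {m e : ℕ} {s u : List ℕ} (h : Good c m e s) (h1 : s <:+ u)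
    (h2 : OK c.E u) : Good c m e u :=
  h.imp (fun ⟨h3, n, h4⟩ => ⟨h3.trans h1.length_le, n, fr_ext h1 (ok_mono c.hB h2) h3 h4⟩)
    (.imp (c.Wm _ _ _ h1) fun ⟨j, j', h3, h4, h5⟩ => ⟨j, j', h3, h4.mono h1, h5.mono h1⟩)

theorem ind [Fintype K] [Inhabited K] {k : ℕ} [NeZero k] (hk : k < Fintype.card K) (m : ℕ) :
    ∀ (c : Ctx S K) (G : List ℕ → Fin k) (Q : ℕ → List ℕ → Prop),
      (∀ i t, DF c.𝓕.sets (Q i) t) → Concl c (m + 2) G Q := by
  induction m with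
  | zero => exact base hk
  | succ m ih =>
    intro c G Q hQ
    obtain ⟨𝓖, h1, h2, θ, G', h3, h4, h5, -⟩ := step S c.cg
      (fun e t m => (c.hφ e t m).mono fun _ h h' => (h h').2) c.g1 G fun _ => ∅
    let c' : Ctx S K := ⟨𝓖, θ, fun t => c.E t ∩ {x | ∀ l ∈ t.sublists.toFinset, G (x :: l) = G' l},
      c.W, h2, fun t => inter_mem (h1 (c.hE t)) ((eventually_all_finset _).2 fun l _ => h4 l),
      fun t => Set.inter_subset_left.trans (c.hB t), fun e t m => h1 (c.hφ e t m),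
      fun e n t h => df_mono h1 (c.hT e n t h), fun e a t h => df_mono h1 (c.hL e a t h), c.Wm,
      fun e t h => df_mono h1 (c.hW e t h), h3⟩
    obtain ⟨𝒯, k1, k2, k3, k4, ⟨b, k5⟩, k6⟩ := ih c' G' (fun i s => if i % 2 = 0 then Q (i / 2) s
        else Good c' (m + 2) (i / 2) s → Good c (m + 1 + 2) (i / 2) s) fun i t => by
      split_ifs
      · exact df_mono h1 (hQ _ _)
      generalize i / 2 = e
      by_cases h : Good c' (m + 2) e t
      swap
      · exact .of fun h' => absurd h' h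
      rcases h with h | h | ⟨j, j', h6, m1, m2⟩
      · exact .of fun _ => Or.inl h
      · exact .of fun _ => Or.inr (Or.inl h)
      refine bind' (fun t1 ⟨h7, h8⟩ => ?_) (df_suf (len_der 𝓖 e e t (by omega)))
      by_cases h : S.Fr e t1
      · exact .of fun _ => Or.inl ⟨h8, h⟩
      refine bind' (fun s ⟨h9, h10⟩ => ?_) (df_suf (c'.hT e 0 t1 (not_not.1 fun h' => h ⟨0, h'⟩)))
      rcases h10 with h10 | ⟨h10, -⟩
      · exact (c'.hW e s h10).mono fun _ h _ => Or.inr (Or.inl h)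
      obtain ⟨l, l1, l2, l3, l4⟩ := m1
      obtain ⟨l', l5, l6, l7, l8⟩ := m2
      refine .step _ (inter_mem (c'.hφ e s (l.sum + l'.sum)) (inter_mem (h5 (e, s, l))
        (h5 (e, s, l')))) fun x ⟨x1, x2, x3⟩ => (df_suf (c'.hL _ _ _ (x1 h10).1)).mono
          fun u ⟨x4, x5⟩ _ => Or.inr (Or.inr ⟨j, j', h6, ?_⟩)
      have x6 : t <:+ u := h7.trans (h9.trans ((List.suffix_cons _ _).trans x4))
      have x7 := (x1 h10).2
      exact ⟨⟨_ :: l, congrArg (· + 1) l1, .cons (fun a ha => by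
          have := List.single_le_sum (fun _ _ => Nat.zero_le _) a ha
          omega) l2, List.forall_mem_cons.2 ⟨x5, fun a ha => S.mono' x6 (l3 a ha)⟩,
          (x2 h10).trans l4⟩, _ :: l', congrArg (· + 1) l5, .cons (fun a ha => by
          have := List.single_le_sum (fun _ _ => Nat.zero_le _) a ha
          omega) l6, List.forall_mem_cons.2 ⟨x5, fun a ha => S.mono' x6 (l7 a ha)⟩,
          (x3 h10).trans l8⟩
    refine ⟨𝒯, k1, fun s hs => ok_mono (fun _ => Set.inter_subset_left) (k2 s hs), k3,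
      fun i s hs => by simpa using k4 (2 * i) s hs, ⟨b, fun s hs => ?_⟩, fun e => ?_⟩
    · have h6 := k2 s hs
      have h7 := k5 s hs
      clear hs
      induction s with
      | nil => exact fun l h h' => by simp [List.sublist_nil.1 h] at h'
      | cons y t ih =>
        intro l h h'
        cases h with
        | cons _ h => exact ih h6.1 (fun l h => h7 l (h.cons _)) l h h'
        | cons_cons _ h =>
          exact (h6.2.2 _ (by simpa using h)).trans (h7 _ (h.cons _) (by simpa using h'))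
    · obtain ⟨s, h6, h7⟩ := k6 e
      obtain ⟨u, h8, h9, h10⟩ := k4 (2 * e + 1) s h6
      rw [if_neg (by omega), show (2 * e + 1) / 2 = e by omega] at h10
      exact ⟨u, h8, h10 (h7.mono h9 (k2 u h8))⟩

theorem fin_of_fr {𝒯 : Set (List ℕ)} (h1 : ∀ s ∈ 𝒯, OK S.B s)
    (h2 : ∀ s ∈ 𝒯, ∀ s' ∈ 𝒯, ∃ u ∈ 𝒯, s <:+ u ∧ s' <:+ u) {e : ℕ} {s : List ℕ} (hs : s ∈ 𝒯)
    (h5 : e ≤ s.length) (h6 : S.Fr e s) : (⋃ u ∈ 𝒯, S.O e u).Finite := by
  obtain ⟨n, h6⟩ := h6
  by_cases h7 : ∃ l ∈ 𝒯, s <:+ l ∧ ∃ x ∈ S.O e l, n ≤ x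
  · obtain ⟨l, h0, h7, x, h8, h9⟩ := h7
    have h10 := fr_ext h7 (h1 l h0) h5 h6
    refine (not_not.1 fun h => h10 (.of (Or.inl h)) : (S.L e l).Finite).subset
      (Set.iUnion₂_subset fun m hm => ?_)
    obtain ⟨u, k1, k2, k3⟩ := h2 m hm l h0
    refine (S.mono' k2).trans (Set.Subset.trans (fun a ha => .of ha) (ok_ind
      (P := fun s => ¬ D0 (S.T e n) s ∧ S.L e s ⊆ S.L e l) k3 (h1 u k1) ⟨h10, le_rfl⟩
      fun s y hs hy h11 => ?_).2)
    have h12 := hy e (h5.trans (h7.trans hs).length_le)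
    exact ⟨fun h => h12.2 ⟨n, h11.1⟩ (der_anti (Nat.find_min' _ h11.1) h),
      (h12.1 fun h => h11.1 (.of (Or.inr ⟨h, x, S.mono' hs h8, h9⟩))).trans h11.2⟩
  · refine (Set.finite_Iio n).subset (Set.iUnion₂_subset fun m hm x hx =>
      Set.mem_Iio.2 (not_le.1 fun h => ?_))
    obtain ⟨u, k1, k2, k3⟩ := h2 m hm s hs
    exact h7 ⟨u, k1, k3, x, S.mono' k2 hx, h⟩

theorem tup {Y : Set ℕ} (h : Y.Infinite) :
    ∀ n, {l : List ℕ | l.length = n + 1 ∧ l.Pairwise (· > ·) ∧ ∀ a ∈ l, a ∈ Y}.Infinite := by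
  have h1 : ∀ l : List ℕ, l.Pairwise (· > ·) → (∀ a ∈ l, a ∈ Y) → {u : List ℕ |
      u.length = l.length + 1 ∧ u.Pairwise (· > ·) ∧ ∀ a ∈ u, a ∈ Y}.Infinite := fun l h2 h3 => by
    refine ((h.diff (Set.finite_Iic l.sum)).image (f := (· :: l))
      fun _ _ _ _ h => List.head_eq_of_cons_eq h).mono ?_
    rintro _ ⟨a, ⟨h4, h5⟩, rfl⟩
    exact ⟨rfl, .cons (fun b hb => (List.single_le_sum (fun _ _ => Nat.zero_le _) b hb).trans_lt
      (not_le.1 h5)) h2, List.forall_mem_cons.2 ⟨h4, h3⟩⟩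
  intro n
  induction n with
  | zero => exact h1 [] .nil (by simp)
  | succ n ih =>
    obtain ⟨l, h2, h3, h4⟩ := ih.nonempty
    exact h2 ▸ h1 l h3 h4

theorem top (S : Sys) [Fintype K] [Inhabited K] [Nontrivial K] (m : ℕ) : ∃ c : Ctx S K,
    (∀ t, ∀ x ∈ c.E t, ∀ y ∈ t, y < x) ∧
      ∀ e s, c.W e s → ∃ j j', j ≠ j' ∧ Has S c.f (m + 1) j e s ∧ Has S c.f (m + 1) j' e s := by
  choose A1 h1 h2 using fun e n => transfer (S.T e n)
  choose A2 h3 h4 using fun e a => transfer fun t => a ∈ S.O e t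
  let 𝒜 : ℕ × ℕ × List ℕ → Set ℕ := fun i => {x | (x ∈ S.B i.2.2 ∧ ∀ y ∈ i.2.2.toFinset, y < x) ∧
    (S.Stop i.1 i.2.2 → S.φ i.1 i.2.2 x ∈ S.L i.1 (x :: i.2.2) ∧ i.2.1 < S.φ i.1 i.2.2 x) ∧
    x ∈ A1 i.1 i.2.1 i.2.2 ∧ x ∈ A2 i.1 i.2.1 i.2.2}
  have h5 : (U0 : Filter ℕ) ≤ ⨅ i, 𝓟 (𝒜 i) := le_iInf fun i => le_principal_iff.2 (inter_mem
    (inter_mem (S.B_mem _) ((eventually_all_finset _).2 fun y _ => Nat.hyperfilter_le_atTop
      (eventually_gt_atTop y))) (inter_mem (eventually_imp_distrib_left.2 fun h => S.φ_ev h _)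
        (inter_mem (h1 _ _ _) (h3 _ _ _))))
  have h6 : ∀ i, 𝒜 i ∈ ⨅ i, 𝓟 (𝒜 i) := fun i => mem_iInf_of_mem i (mem_principal_self _)
  obtain ⟨𝓖, k1, k2, θ, -, k3, -, -, k4⟩ := step (K := K) (𝓕 := ⨅ i, 𝓟 (𝒜 i))
    (R := fun _ _ => Set.univ) S inferInstance (fun e t m => mem_of_superset (h6 (e, m, t))
      fun _ h h' => (h.2.1 h').2) (fun _ _ => Frequently.filter_mono
        (Eventually.frequently (by simp)) h5) (fun _ => ())
    fun a => {l | l.length = m + 1 ∧ l.Pairwise (· > ·) ∧ ∀ x ∈ l, x ∈ S.L a.1 a.2}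
  have k5 : ∀ e a t, a ∈ S.L e t → DF 𝓖.sets (fun t => a ∈ S.O e t) t := fun e a =>
    h4 e a _ fun t => mem_of_superset (k1 (h6 (e, a, t))) fun _ h => h.2.2.2
  have k6 : ∀ e t j, (S.L e t).Infinite → DF 𝓖.sets (Has S θ (m + 1) j e) t := fun e t j h => by
    obtain ⟨l, ⟨l1, l2, l3⟩, l4⟩ := k4 (e, t) j (tup h m)
    refine DF.mono (P := fun s => ∀ a ∈ l, a ∈ S.O e s) (fun s hs => ⟨l, l1, l2, hs, l4⟩) ?_
    clear l1 l2 l4
    induction l with
    | nil => exact .of (by simp)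
    | cons a l ih =>
      exact (and' (fun t x h => S.mono e t x h) (fun t x h a ha => S.mono e t x (h a ha))
        (k5 e a t (l3 a List.mem_cons_self)) (ih fun x hx => l3 x (List.mem_cons_of_mem _ hx))).mono
        fun _ => List.forall_mem_cons.2
  obtain ⟨j, j', hj⟩ := exists_pair_ne K
  exact ⟨⟨𝓖, θ, fun t => 𝒜 (0, 0, t), fun e s => Has S θ (m + 1) j e s ∧ Has S θ (m + 1) j' e s, k2,
    fun t => k1 (h6 _), fun t x h => h.1.1, fun e t m => mem_of_superset (k1 (h6 (e, m, t)))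
      fun _ h => h.2.1, fun e n => h2 e n _ fun t => mem_of_superset (k1 (h6 (e, n, t)))
        fun _ h => h.2.2.1, k5, fun _ _ _ h h' => ⟨h'.1.mono h, h'.2.mono h⟩, fun e t h =>
      and' (fun _ _ h => h.mono (List.suffix_cons _ _)) (fun _ _ h => h.mono (List.suffix_cons _ _))
        (k6 e t j h) (k6 e t j' h), k3⟩, fun t x h y hy => h.1.2 y (List.mem_toFinset.2 hy),
    fun e s h => ⟨j, j', hj, h⟩⟩

theorem main (m k : ℕ) : ∃ f : List ℕ → Fin (k + 2), ∀ G : List ℕ → Fin (k + 1), ∃ H : Om,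
    {m | H m = true}.Infinite ∧ (∃ b, ∀ l : List ℕ, l.length = m + 2 → l.Pairwise (· > ·) →
      (∀ a ∈ l, H a = true) → G l = b) ∧
    ∀ X : Om, {m | X m = true}.Infinite → TuringReducible (orc X) (orc H) →
      ¬ ∃ j, ∀ l : List ℕ, l.length = m + 2 → l.Pairwise (· > ·) → (∀ a ∈ l, X a = true) →
        f l = j := by
  obtain ⟨c, c1, c2⟩ := top (K := Fin (k + 2)) S0 (m + 1)
  refine ⟨c.f, fun G => ?_⟩
  obtain ⟨𝒯, ⟨s0, h0⟩, h1, h2, h4, ⟨b, hb⟩, h9⟩ := ind (by simp) m c G (fun i s => i ≤ s.length)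
    fun i t => len_der _ i i t (by omega)
  have h3 : ∀ t, OK c.E t → t.Pairwise (· > ·) := fun t => by
    induction t with
    | nil => exact fun _ => .nil
    | cons x t ih => exact fun h => .cons (c1 t x h.2) (ih h.1)
  let H : Om := fun y => decide (∃ t ∈ 𝒯, y ∈ t)
  have h5 : {m | H m = true}.Infinite := fun h => by
    obtain ⟨u, k0, -, k3⟩ := h4 (h.toFinset.card + 1) s0 h0
    have k2 := Finset.card_le_card (s := u.toFinset) (t := h.toFinset)
      fun y hy => h.mem_toFinset.2 (decide_eq_true ⟨_, k0, List.mem_toFinset.1 hy⟩)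
    rw [List.toFinset_card_of_nodup ((h3 _ (h1 u k0)).imp fun h => h.ne')] at k2
    omega
  have h6 : ∀ t ∈ 𝒯, ∀ y s, y :: s <:+ t → ∀ z ≤ y, H z = decide (z ∈ y :: s) := by
    intro t ht y s h z hz
    refine decide_eq_decide.2 ⟨fun ⟨l, hl, k0⟩ => ?_, fun hz => ⟨t, ht, h.subset hz⟩⟩
    obtain ⟨u, k3, k4, k5⟩ := h2 t ht l hl
    obtain ⟨r, hr⟩ := h.trans k4
    have k1 := k5.subset k0
    have k2 := h3 _ (h1 u k3)
    rw [← hr] at k1 k2
    exact (List.mem_append.1 k1).resolve_left fun k3 =>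
      ((List.pairwise_append.1 k2).2.2 z k3 y List.mem_cons_self).not_ge hz
  refine ⟨H, h5, ⟨b, fun l k1 k2 k3 => ?_⟩, fun X hX hr ⟨j, hj⟩ => ?_⟩
  · obtain ⟨u, k4, k5⟩ : ∃ u ∈ 𝒯, l ⊆ u := by
      clear k1 k2
      induction l with
      | nil => exact ⟨s0, h0, by simp⟩
      | cons a l ih =>
        obtain ⟨u, k4, k5⟩ := ih fun x hx => k3 x (List.mem_cons_of_mem _ hx)
        obtain ⟨v, k6, k7⟩ := of_decide_eq_true (k3 a List.mem_cons_self)
        obtain ⟨w, k8, k9, k10⟩ := h2 u k4 v k6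
        exact ⟨w, k8, List.cons_subset.2 ⟨k10.subset k7, List.Subset.trans k5 k9.subset⟩⟩
    exact hb u k4 l (List.sublist_of_subperm_of_pairwise (List.subperm_of_subset
      (k2.imp fun h => h.ne') k5) k2 (h3 u (h1 u k4))) k1
  obtain ⟨e, he⟩ := complete H _ hr
  have h8 : ∀ t ∈ 𝒯, ∀ x ∈ S0.O e t, X x = true := fun t ht x ⟨y, s, k1, u, k2, k3⟩ => by
    rw [← att_congr e (fun z hz => h6 t ht y s k1 z hz.le) k2] at k3
    have := (he x).2 u (by omega)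
    cases h : X x
    · simp [h, k3] at this
    · rfl
  obtain ⟨s, hs, h⟩ := h9 e
  rcases h.imp_right (·.elim (c2 e s) id) with
    h | ⟨j1, j2, k1, ⟨l, l1, l2, l3, l4⟩, l', l5, l6, l7, l8⟩
  · refine hX ((fin_of_fr (fun s hs => ok_mono c.hB (h1 s hs)) h2 hs h.1 h.2).subset fun x hx => ?_)
    obtain ⟨u, hu⟩ := (he x).1
    obtain ⟨y, hy, k1⟩ := h5.exists_gt u
    obtain ⟨t, ht, k0⟩ := of_decide_eq_true hy
    obtain ⟨r, s, k2⟩ := List.append_of_mem k0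
    refine Set.mem_iUnion₂.2 ⟨t, ht, y, s, ⟨r, k2.symm⟩, u, k1.le, ?_⟩
    rw [← att_congr e (fun z hz => h6 t ht y s ⟨r, k2.symm⟩ z hz.le) k1.le, (he x).2 u hu,
      show X x = true from hx]
    rfl
  · exact k1 ((l4 ▸ hj l l1 l2 fun a ha => h8 s hs a (l3 a ha)).trans
      (l8 ▸ hj l' l5 l6 fun a ha => h8 s hs a (l7 a ha)).symm)

end Pool.Agent.H.MP_40eef6_lc
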