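import Pool.Agent.H.MP_40eef6_lc.C

set_option autoImplicit false

namespace Pool.Agent.H.MP_40eef6_lc

open Pool.Agent.Lib.helper21.Fn
open scoped Classical

theorem shift {X : Set ℕ} (hX : X.Infinite) (n : ℕ) : ∀ (K : Type) [Finite K] (f : List ℕ → K),
    ∃ u : List ℕ, u.length = n + 2 ∧ u.Pairwise (· > ·) ∧ (∀ a ∈ u, a ∈ X) ∧
      f u.tail = f u.dropLast := by
  induction n with
  | zero =>
    intro K _ f
    obtain ⟨x, hx, y, hy, h1, h2⟩ := hX.exists_lt_map_eq_of_mapsTo (f := fun x => f [x])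
      (Set.mapsTo_univ _ _) Set.finite_univ
    exact ⟨[y, x], rfl, by simpa using h1, by simp [hx, hy], h2⟩
  | succ n ih =>
    intro K _ f
    obtain ⟨u, h1, h2, h3, h4⟩ := ih (Set K) fun l => {c | ∃ z ∈ X, (∀ y ∈ l, y < z) ∧ f (z :: l) = c}
    obtain ⟨x, y, l, rfl⟩ : ∃ x y l, u = x :: y :: l := by
      rcases u with _ | ⟨x, _ | ⟨y, l⟩⟩ <;> simp at h1 ⊢
    obtain ⟨z, h5, h6, h7⟩ := (Set.ext_iff.1 h4 _).1
      ⟨x, h3 x List.mem_cons_self, (List.pairwise_cons.1 h2).1, rfl⟩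
    have h8 : x < z := h6 x (by simp)
    exact ⟨z :: x :: y :: l, congrArg (· + 1) h1, .cons (List.forall_mem_cons.2 ⟨h8, fun a ha =>
      lt_trans ((List.pairwise_cons.1 h2).1 a ha) h8⟩) h2, List.forall_mem_cons.2 ⟨h5, h3⟩, h7.symm⟩

theorem const {K : Type} {X : Set ℕ} (hX : X.Infinite) {n : ℕ} {f : List ℕ → K}
    (h : ∀ u : List ℕ, u.length = n + 2 → u.Pairwise (· > ·) → (∀ a ∈ u, a ∈ X) →
      f u.tail = f u.dropLast) : ∃ j, ∀ l : List ℕ, l.length = n + 1 → l.Pairwise (· > ·) →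
        (∀ a ∈ l, a ∈ X) → f l = j := by
  have h1 : ∀ l w : List ℕ, l.length = n + 1 → (w ++ l).Pairwise (· > ·) → (∀ a ∈ w ++ l, a ∈ X) →
      f ((w ++ l).take (n + 1)) = f l := fun l w h1 => by
    induction w with
    | nil => exact fun _ _ => congrArg f (List.take_of_length_le h1.le)
    | cons z w ih =>
      intro h2 h3
      have h4 : ((z :: w ++ l).take (n + 2)).length = n + 2 := by simp; omega
      rw [← ih (List.pairwise_cons.1 h2).2 fun a ha => h3 a (List.mem_cons_of_mem _ ha)]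
      refine Eq.trans (congrArg f ?_) (h _ h4 (h2.sublist (List.take_sublist _ _))
        fun a ha => h3 a (List.mem_of_mem_take ha)).symm
      rw [List.dropLast_eq_take, h4, List.take_take]
      simp
  obtain ⟨l0, h2, h3, h4⟩ := (tup hX n).nonempty
  refine ⟨f l0, fun l k2 k3 k4 => ?_⟩
  obtain ⟨w, h5, h6, h7⟩ := (tup (hX.diff (Set.finite_Iic (l.sum + l0.sum))) n).nonempty
  have h8 : ∀ l' : List ℕ, l'.length = n + 1 → l'.Pairwise (· > ·) → (∀ a ∈ l', a ∈ X) →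
      l'.sum ≤ l.sum + l0.sum → f l' = f w := fun l' k5 k6 k7 k8 => by
    rw [← h1 l' w k5 (List.pairwise_append.2 ⟨h6, k6, fun a ha b hb => ((List.single_le_sum
      (fun _ _ => Nat.zero_le _) b hb).trans k8).trans_lt (not_le.1 (h7 a ha).2)⟩)
      (List.forall_mem_append.2 ⟨fun a ha => (h7 a ha).1, k7⟩), List.take_left' h5]
  rw [h8 l k2 k3 k4 (by omega), h8 l0 h2 h3 h4 (by omega)]

theorem main' (m k : ℕ) : ∃ f : List ℕ → Fin (k + 2), ∀ d : Finset ℕ → Fin (k + 1), ∃ H : Set ℕ,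
    H.Infinite ∧ (∃ i, ∀ s : Finset ℕ, (↑s : Set ℕ) ⊆ H → s.card = m + 2 → d s = i) ∧
    ∀ G : Set ℕ, G.Infinite → TuringReducible
      (fun x : ℕ => Part.some (Set.indicator G (fun _ => (1 : ℕ)) x))
      (fun x : ℕ => Part.some (Set.indicator H (fun _ => (1 : ℕ)) x)) →
      ¬ ∃ j, ∀ l : List ℕ, l.length = m + 2 → l.Pairwise (· > ·) → (∀ a ∈ l, a ∈ G) → f l = j := by
  obtain ⟨f, hf⟩ := main m k
  refine ⟨f, fun d => ?_⟩
  obtain ⟨H, h1, ⟨b, h2⟩, h3⟩ := hf fun l => d l.toFinset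
  have e1 : ∀ Y : Set ℕ, (fun m => Part.some (Y.indicator (fun _ => (1 : ℕ)) m)) =
      orc fun m => decide (m ∈ Y) := fun Y => funext fun m => by
    by_cases h : m ∈ Y <;> simp [orc, h]
  refine ⟨_, h1, ⟨b, fun s k1 k2 => ?_⟩, fun G k1 k2 => ?_⟩
  · simpa using h2 (s.sort (· ≥ ·)) (by simpa using k2) s.sortedGT_sort.pairwise
      fun a ha => k1 (by simpa using ha)
  · rw [e1, e1] at k2
    simpa using h3 (fun m => decide (m ∈ G)) (by simpa using k1) (by simpa using k2)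

theorem hom {K : Type} {f : List ℕ → K} {G : Set ℕ} {n : ℕ} {j : K} (h : ∀ s : Finset ℕ,
    (↑s : Set ℕ) ⊆ G → s.card = n → f (s.sort (· ≥ ·)) = j) (l : List ℕ) (h1 : l.length = n)
    (h2 : l.Pairwise (· > ·)) (h3 : ∀ a ∈ l, a ∈ G) : f l = j := by
  have h4 : l.Nodup := h2.imp fun h => h.ne'
  rw [← h l.toFinset (fun a ha => h3 a (by simpa using ha)) (by rwa [List.toFinset_card_of_nodup h4]),
    (List.toFinset_sort _ h4).2 (h2.imp fun h => h.le)]

end Pool.Agent.H.MP_40eef6_lc
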